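import Pool.Agent.R237.ZS.Main

/-!
# MP_098288_an, Q1: the equivalence fails

There is a simple C*-algebra that is not a Z*-algebra, although in each of its representations
every operator has a nontrivial kernel.
-/

set_option autoImplicit false

open scoped symmDiff

namespace Pool.Agent.Results.MP_098288_an.SimpleNotZStar

open Pool.Agent.R237.ZS

/-- The codes. -/
abbrev Code : Type := Finset ℕ × Finset (TopologicalSpace.countableBasis ℝ)

/-- The point attached to a code. -/
def point (n : Code) : Set (ℕ ⊕ ℝ) :=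
  {j | Sum.elim (fun k => k ∈ n.1) (fun r => ∃ U ∈ n.2, r ∈ (U : Set ℝ)) j}

theorem point_inl (n : Code) (k : ℕ) : Sum.inl k ∈ point n ↔ k ∈ n.1 := Iff.rfl

theorem point_inr (n : Code) (r : ℝ) :
    Sum.inr r ∈ point n ↔ ∃ U ∈ n.2, r ∈ (U : Set ℝ) := Iff.rfl

theorem point_dense (i : ℝ) (G : Finset (ℕ ⊕ ℝ)) (z : Set (ℕ ⊕ ℝ)) :
    ∃ n, Agr G (spt point n i) z := by
  classical
  -- the desired values
  set z' : Set (ℕ ⊕ ℝ) := z ∆ {Sum.inr i} with hz'
  suffices h : ∃ n, Agr G (point n) z' by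
    obtain ⟨n, hn⟩ := h
    refine ⟨n, ?_⟩
    have := hn.flip {Sum.inr i}
    rwa [hz', Pool.Agent.R237.ZS.flip_flip] at this
  set G1 : Finset ℝ := (G.preimage Sum.inr Sum.inr_injective.injOn).filter
    (fun r => Sum.inr r ∈ z') with hG1
  set G0 : Finset ℝ := (G.preimage Sum.inr Sum.inr_injective.injOn).filter
    (fun r => Sum.inr r ∉ z') with hG0
  have hU : ∀ r : ℝ, r ∈ G1 → ∃ U : TopologicalSpace.countableBasis ℝ, r ∈ (U : Set ℝ) ∧
      (U : Set ℝ) ⊆ (G0 : Set ℝ)ᶜ := by
    intro r hr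
    have h1 : IsOpen ((G0 : Set ℝ)ᶜ) := G0.finite_toSet.isClosed.isOpen_compl
    have h2 : r ∈ (G0 : Set ℝ)ᶜ := by
      intro h
      have h3 := (Finset.mem_filter.1 (Finset.mem_coe.1 h)).2
      exact h3 (Finset.mem_filter.1 hr).2
    obtain ⟨U, hU, hrU, hU'⟩ :=
      (TopologicalSpace.isBasis_countableBasis ℝ).exists_subset_of_mem_open h2 h1
    exact ⟨⟨U, hU⟩, hrU, hU'⟩
  choose U hU1 hU2 using hU
  refine ⟨((G.preimage Sum.inl Sum.inl_injective.injOn).filter (fun k => Sum.inl k ∈ z'),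
    G1.attach.image (fun r => U r.1 r.2)), ?_⟩
  rintro (k | r) hj
  · rw [point_inl, Finset.mem_filter, Finset.mem_preimage]
    exact ⟨fun h => h.2, fun h => ⟨hj, h⟩⟩
  · rw [point_inr]
    constructor
    · rintro ⟨V, hV, hrV⟩
      obtain ⟨⟨s, hs⟩, -, rfl⟩ := Finset.mem_image.1 hV
      by_contra hr
      apply hU2 s hs hrV
      rw [Finset.mem_coe, hG0, Finset.mem_filter, Finset.mem_preimage]
      exact ⟨hj, hr⟩
    · intro hr
      have h1 : r ∈ G1 := by
        rw [hG1, Finset.mem_filter, Finset.mem_preimage]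
        exact ⟨hj, hr⟩
      exact ⟨U r h1, Finset.mem_image.2 ⟨⟨r, h1⟩, Finset.mem_attach _ _, rfl⟩, hU1 r h1⟩

/-- There is a simple C*-algebra that is not a Z*-algebra, yet for every representation of it
every operator in its range has nontrivial kernel. -/
theorem result.{u} : ∃ (A : Type) (_ : NonUnitalCStarAlgebra A), IsSimpleAlg A ∧ ¬ IsZStar A ∧
    ∀ (H : Type u) [NormedAddCommGroup H] [InnerProductSpace ℂ H] [CompleteSpace H]
      [Nontrivial H] (π : A →⋆ₙₐ[ℂ] (H →L[ℂ] H)) (a : A), ∃ v : H, v ≠ 0 ∧ π a v = 0 := by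
  classical
  let _ : Encodable Code := Encodable.ofCountable _
  obtain ⟨w, hw0, c, hws, hc⟩ := posSumOfEncodable (show (0 : ℝ) < 1 / 4 by norm_num) Code
  have hcl : IsClosed (AA point w : Set (HH ℝ Code →L[ℂ] HH ℝ Code)) := isClosed_AA point w
  let inst : NonUnitalCStarAlgebra (AA point w) :=
    NonUnitalStarSubalgebra.nonUnitalCStarAlgebra (AA point w)
  let e : Emb (AA point w) point w :=
    { i := fun a => a.1
      add := fun _ _ => rfl
      smul := fun _ _ => rfl
      mul := fun _ _ => rfl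
      star := fun _ => rfl
      norm := fun _ => rfl
      mem := fun a => a.2
      surj := fun T hT => ⟨⟨T, hT⟩, rfl⟩ }
  obtain ⟨y, hyA, hy1, -⟩ := exists_y (pt := point) hw0 hws hc 0
  have hne : ∃ a : AA point w, a ≠ 0 := by
    refine ⟨⟨y, hyA⟩, fun h => ?_⟩
    have h1 : y = 0 := congrArg Subtype.val h
    rw [h1, mul_zero, norm_zero] at hy1
    norm_num at hy1
  have hs := e.simple hne
  obtain ⟨a, haA, hastar, α, hα, hα'⟩ := exists_a (I := ℝ) point w
  refine ⟨AA point w, inst, hs, e.not_zstar haA hastar fun T hT h => ?_, ?_⟩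
  · exact no_div (fun n => (hw0 n).ne') point_dense hastar hα hα' hT h
  · intro H _ _ _ _ π a
    exact e.rep hs hw0 hws hc π a

end Pool.Agent.Results.MP_098288_an.SimpleNotZStar
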